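import Pool.Agent.R993.GS.Link
import Pool.Agent.R993.GS.Cont3

/-! # The operational squeezing measure G is continuous on all covariance matrices

With H = (P-1)/(P+1) the Cayley transform of a pure covariance matrix P = SᵀS, the constraint
P ≤ γ reads H ≤ h := (γ-1)/(γ+1); H is symmetric and anticommutes with σ, so the feasible H are
A + √K C √K with A, K the parts of h anticommuting/commuting with σ, and C running over the
compact set of symmetric contractions anticommuting with σ.  The objective is a continuous function
of (γ, C), hence the infimum over the fixed compact set of C is continuous. -/

namespace Pool.Agent.Results.MP_7519fb_mp.Continuity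

open Matrix Pool.Agent.R993.GS

theorem result (n : ℕ) : ContinuousOn (fun γ : Mat n => G γ) {γ : Mat n | IsCov γ} := by
  have h := gen_continuousOn (sForm_transpose n) (sForm_sq n) (card_modes n)
  exact h.mono fun γ hγ => hγ.rc

end Pool.Agent.Results.MP_7519fb_mp.Continuity
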